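import Mathlib

/-!
# Waring rank after adjoining a new variable

For every `n ≥ 3` there are a cubic form `f` and a quadratic form `g` in `n` variables with
`WR (f + u g) < 3 + min_v WR (f + v g)`.
-/

namespace Pool.Agent.Results.MP_1e0c69_ag.AdjoinVariable

open MvPolynomial Finset

/-- `F` is a sum of `w` many `d`-th powers of linear forms (homogeneous polynomials of
degree `1`, the zero form included). -/
def IsPowerSum {σ : Type} (d w : ℕ) (F : MvPolynomial σ ℂ) : Prop :=
  ∃ L : Fin w → MvPolynomial σ ℂ, (∀ i, (L i).IsHomogeneous 1) ∧ F = ∑ i, (L i) ^ d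

/-- The Waring rank of the form `F` of degree `d`: the least `w` such that `F` is a sum of `w`
many `d`-th powers of linear forms. -/
noncomputable def WR {σ : Type} (d : ℕ) (F : MvPolynomial σ ℂ) : ℕ :=
  sInf {w : ℕ | IsPowerSum d w F}

/-- The polynomial `f + u g` in `n + 1` variables, the new variable `u` being the last one. -/
noncomputable def adjoin {n : ℕ} (f g : MvPolynomial (Fin n) ℂ) : MvPolynomial (Fin (n + 1)) ℂ :=
  rename Fin.castSucc f + X (Fin.last n) * rename Fin.castSucc g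

/-! ## Linear algebra core -/

section Core

variable {ι : Type} [Fintype ι] [DecidableEq ι]

lemma sum_single_two (F : ι → ℂ) (i j : ι) (α β : ℂ) :
    ∑ q, F q * ((Pi.single i α : ι → ℂ) q + (Pi.single j β : ι → ℂ) q) = F i * α + F j * β := by
  simp [Pi.single_apply, mul_add, Finset.sum_add_distrib]

lemma sum_single_three (F : ι → ℂ) (i j k : ι) (α β γ : ℂ) :
    ∑ q, F q * ((Pi.single i α : ι → ℂ) q + (Pi.single j β : ι → ℂ) q +
      (Pi.single k γ : ι → ℂ) q) = F i * α + F j * β + F k * γ := by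
  simp [Pi.single_apply, mul_add, Finset.sum_add_distrib]

lemma exists_notMem_of_card (S : Finset ι) (h : S.card < Fintype.card ι) : ∃ q, q ∉ S := by
  by_contra hc
  push Not at hc
  have : S = Finset.univ := by
    ext q; simp [hc q]
  rw [this, Finset.card_univ] at h
  exact lt_irrefl _ h

lemma core (a c w : ι → ℂ) (hinj : Function.Injective a) (ha0 : ∀ i, a i ≠ 0)
    (hc1 : ∑ i, c i = 1) (hasum : ∑ i, a i = 0) (hcard : 5 ≤ Fintype.card ι)
    (hwa : ∑ i, a i * w i = 0) (hwc : ∑ i, c i * w i = 0)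
    (hB : ∀ m m' : ι → ℂ, ∑ i, a i * m i = 0 → ∑ i, c i * m i = 0 →
      ∑ i, a i * m' i = 0 → ∑ i, c i * m' i = 0 → ∑ i, a i * w i * m i * m' i = 0) :
    w = 0 := by
  by_contra hw
  obtain ⟨i, hi⟩ : ∃ i, w i ≠ 0 := by
    by_contra h
    push Not at h
    exact hw (funext h)
  -- Step A
  have stepA : ∀ j k l p : ι, j ≠ i → k ≠ i → l ≠ i → p ≠ i → j ≠ l → j ≠ p → k ≠ l → k ≠ p →
      (a j * c k - a k * c j) * (a l * c p - a p * c l) = 0 := by
    intro j k l p hj hk hl hp hjl hjp hkl hkp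
    set m : ι → ℂ := fun q => (Pi.single i (a j * c k - a k * c j) : ι → ℂ) q +
      (Pi.single j (a k * c i - a i * c k) : ι → ℂ) q +
      (Pi.single k (a i * c j - a j * c i) : ι → ℂ) q with hm
    set m' : ι → ℂ := fun q => (Pi.single i (a l * c p - a p * c l) : ι → ℂ) q +
      (Pi.single l (a p * c i - a i * c p) : ι → ℂ) q +
      (Pi.single p (a i * c l - a l * c i) : ι → ℂ) q with hm'
    have h := hB m m' (by rw [hm, sum_single_three]; ring) (by rw [hm, sum_single_three]; ring)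
      (by rw [hm', sum_single_three]; ring) (by rw [hm', sum_single_three]; ring)
    have h2 : ∑ q, a q * w q * m q * m' q = ∑ q, (a q * w q * m' q) * m q :=
      Finset.sum_congr rfl fun q _ => by ring
    rw [h2, hm, sum_single_three] at h
    have e1 : m' i = a l * c p - a p * c l := by
      simp [hm', Pi.single_apply, hl.symm, hp.symm]
    have e2 : m' j = 0 := by
      simp [hm', Pi.single_apply, hj, hjl, hjp]
    have e3 : m' k = 0 := by
      simp [hm', Pi.single_apply, hk, hkl, hkp]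
    rw [e1, e2, e3] at h
    have h3 : (a i * w i) * ((a j * c k - a k * c j) * (a l * c p - a p * c l)) = 0 := by
      linear_combination h
    rcases mul_eq_zero.1 h3 with h4 | h4
    · exact absurd h4 (mul_ne_zero (ha0 i) hi)
    · exact h4
  -- Step B
  obtain ⟨j0, hj0, β, hβ⟩ : ∃ j0, j0 ≠ i ∧ ∃ β : ℂ, ∀ q, q ≠ i → q ≠ j0 → c q = β * a q := by
    by_cases hall : ∀ j k, j ≠ i → k ≠ i → j ≠ k → a j * c k - a k * c j = 0
    · obtain ⟨j0, hj0⟩ := exists_notMem_of_card {i} (by rw [card_singleton]; omega)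
      rw [mem_singleton] at hj0
      refine ⟨j0, hj0, c j0 / a j0, fun q hq hq' => ?_⟩
      have := hall j0 q hj0 hq (Ne.symm hq')
      field_simp [ha0 j0]
      linear_combination this
    · push Not at hall
      obtain ⟨j, k, hj, hk, hjk, hne⟩ := hall
      have hrest : ∀ l p, l ≠ i → p ≠ i → j ≠ l → j ≠ p → k ≠ l → k ≠ p →
          a l * c p - a p * c l = 0 := by
        intro l p hl hp hjl hjp hkl hkp
        rcases mul_eq_zero.1 (stepA j k l p hj hk hl hp hjl hjp hkl hkp) with h | h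
        · exact absurd h hne
        · exact h
      obtain ⟨l, hl⟩ := exists_notMem_of_card {i, j, k} (by
        have : ({i, j, k} : Finset ι).card ≤ 3 := card_le_three
        omega)
      obtain ⟨p, hp⟩ := exists_notMem_of_card {i, j, k, l} (by
        have : ({i, j, k, l} : Finset ι).card ≤ 4 := card_le_four
        omega)
      simp only [mem_insert, mem_singleton, not_or] at hl hp
      obtain ⟨hli, hlj, hlk⟩ := hl
      obtain ⟨hpi, hpj, hpk, hpl⟩ := hp
      have hlp := hrest l p hli hpi (Ne.symm hlj) (Ne.symm hpj) (Ne.symm hlk) (Ne.symm hpk)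
      rcases mul_eq_zero.1 (stepA j l k p hj hli hk hpi hjk (Ne.symm hpj) hlk (Ne.symm hpl)) with
        h | h
      · -- `b_j = b_l`, exception `k`
        refine ⟨k, hk, c l / a l, fun q hqi hqk => ?_⟩
        by_cases hqj : q = j
        · subst hqj
          field_simp [ha0 l]
          linear_combination -h
        · by_cases hql : q = l
          · subst hql
            field_simp [ha0 q]
          · have := hrest l q hli hqi (Ne.symm hlj) (Ne.symm hqj) (Ne.symm hlk) (Ne.symm hqk)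
            field_simp [ha0 l]
            linear_combination this
      · -- `b_k = b_p`, exception `j`
        refine ⟨j, hj, c p / a p, fun q hqi hqj => ?_⟩
        by_cases hqk : q = k
        · subst hqk
          field_simp [ha0 p]
          linear_combination -h
        · by_cases hqp : q = p
          · subst hqp
            field_simp [ha0 q]
          · have := hrest p q hpi hqi (Ne.symm hpj) (Ne.symm hqj) (Ne.symm hpk) (Ne.symm hqk)
            field_simp [ha0 p]
            linear_combination this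
  -- Step C: `w` vanishes off `{i, j0}`
  have hoff : ∀ k, k ≠ i → k ≠ j0 → w k = 0 := by
    intro k hki hkj
    obtain ⟨l, hl⟩ := exists_notMem_of_card {i, j0, k} (by
      have : ({i, j0, k} : Finset ι).card ≤ 3 := card_le_three
      omega)
    obtain ⟨p, hp⟩ := exists_notMem_of_card {i, j0, k, l} (by
      have : ({i, j0, k, l} : Finset ι).card ≤ 4 := card_le_four
      omega)
    simp only [mem_insert, mem_singleton, not_or] at hl hp
    obtain ⟨hli, hlj, hlk⟩ := hl
    obtain ⟨hpi, hpj, hpk, hpl⟩ := hp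
    set m : ι → ℂ := fun q => (Pi.single k (a l) : ι → ℂ) q + (Pi.single l (-a k) : ι → ℂ) q
      with hm
    set m' : ι → ℂ := fun q => (Pi.single k (a p) : ι → ℂ) q + (Pi.single p (-a k) : ι → ℂ) q
      with hm'
    have ck := hβ k hki hkj
    have cl := hβ l hli hlj
    have cp := hβ p hpi hpj
    have h := hB m m' (by rw [hm, sum_single_two]; ring)
      (by rw [hm, sum_single_two, ck, cl]; ring)
      (by rw [hm', sum_single_two]; ring) (by rw [hm', sum_single_two, ck, cp]; ring)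
    have h2 : ∑ q, a q * w q * m q * m' q = ∑ q, (a q * w q * m' q) * m q :=
      Finset.sum_congr rfl fun q _ => by ring
    rw [h2, hm, sum_single_two] at h
    have e1 : m' k = a p := by
      simp [hm', Pi.single_apply, Ne.symm hpk]
    have e2 : m' l = 0 := by
      simp [hm', Pi.single_apply, hlk, Ne.symm hpl]
    rw [e1, e2] at h
    have h3 : (a k * a p * a l) * w k = 0 := by linear_combination h
    rcases mul_eq_zero.1 h3 with h4 | h4
    · exact absurd h4 (mul_ne_zero (mul_ne_zero (ha0 k) (ha0 p)) (ha0 l))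
    · exact h4
  -- sums supported on `{i, j0}`
  have hsupp : ∀ F : ι → ℂ, (∀ q, q ≠ i → q ≠ j0 → F q = 0) → ∑ q, F q = F i + F j0 := by
    intro F hF
    rw [← Finset.sum_pair (Ne.symm hj0)]
    symm
    refine Finset.sum_subset (Finset.subset_univ _) ?_
    intro q _ hq
    simp only [mem_insert, mem_singleton, not_or] at hq
    exact hF q hq.1 hq.2
  have h1 : a i * w i + a j0 * w j0 = 0 := by
    rw [← hsupp (fun q => a q * w q) (fun q hq hq' => by simp [hoff q hq hq'])]
    exact hwa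
  have h2 : a i * w i ^ 3 + a j0 * w j0 ^ 3 = 0 := by
    have h := hB w w hwa hwc hwa hwc
    rw [hsupp (fun q => a q * w q * w q * w q) (fun q hq hq' => by simp [hoff q hq hq'])] at h
    linear_combination h
  have h3 : (c i - β * a i) * w i + (c j0 - β * a j0) * w j0 = 0 := by
    rw [← hsupp (fun q => (c q - β * a q) * w q) (fun q hq hq' => by simp [hoff q hq hq'])]
    have : ∑ q, (c q - β * a q) * w q = ∑ q, c q * w q - β * ∑ q, a q * w q := by
      rw [Finset.mul_sum, ← Finset.sum_sub_distrib]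
      exact Finset.sum_congr rfl fun q _ => by ring
    rw [this, hwa, hwc]; ring
  have h4 : (c i - β * a i) + (c j0 - β * a j0) = 1 := by
    rw [← hsupp (fun q => (c q - β * a q)) (fun q hq hq' => by simp [hβ q hq hq'])]
    rw [Finset.sum_sub_distrib, ← Finset.mul_sum, hc1, hasum]; ring
  have h5 : (a i * w i) * ((w i - w j0) * (w i + w j0)) = 0 := by
    linear_combination h2 - w j0 ^ 2 * h1
  rcases mul_eq_zero.1 h5 with h6 | h6
  · exact mul_ne_zero (ha0 i) hi h6
  rcases mul_eq_zero.1 h6 with h7 | h7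
  · have h8 : w j0 = w i := by linear_combination -h7
    rw [h8] at h3
    have : w i = 0 := by linear_combination h3 - w i * h4
    exact hi this
  · have h8 : w j0 = - w i := by linear_combination h7
    rw [h8] at h1
    have h9 : w i * (a i - a j0) = 0 := by linear_combination h1
    rcases mul_eq_zero.1 h9 with h10 | h10
    · exact hi h10
    · exact hj0 (hinj (by linear_combination -h10))

end Core

/-! ## The family -/

/-- The cubic form `∑ (i+2) x_i ^ 3 - (∑ (i+2) x_i) ^ 3` (indices from `0` to `n-1`). -/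
noncomputable def fpol (n : ℕ) : MvPolynomial (Fin n) ℂ :=
  ∑ i : Fin n, C ((i : ℕ) + 2 : ℂ) * X i ^ 3 - (∑ i : Fin n, C ((i : ℕ) + 2 : ℂ) * X i) ^ 3

/-- The quadratic form `3 (∑ (i+2) x_i ^ 2 + (∑ (i+2) x_i) ^ 2)`. -/
noncomputable def gpol (n : ℕ) : MvPolynomial (Fin n) ℂ :=
  3 * (∑ i : Fin n, C ((i : ℕ) + 2 : ℂ) * X i ^ 2 + (∑ i : Fin n, C ((i : ℕ) + 2 : ℂ) * X i) ^ 2)

lemma key_identity {R : Type*} [CommRing R] {n : ℕ} (a y : Fin n → R) (u : R) :
    ∑ i, a i * y i ^ 3 - (∑ i, a i * y i) ^ 3 +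
      u * (3 * (∑ i, a i * y i ^ 2 + (∑ i, a i * y i) ^ 2)) =
    ∑ i, a i * (u + y i) ^ 3 + ((u - ∑ i, a i * y i) ^ 3 - (1 + ∑ i, a i) * u ^ 3) := by
  have h : ∑ i, a i * (u + y i) ^ 3 = ∑ i, a i * y i ^ 3 + 3 * u * ∑ i, a i * y i ^ 2 +
      3 * u ^ 2 * ∑ i, a i * y i + u ^ 3 * ∑ i, a i := by
    rw [Finset.mul_sum, Finset.mul_sum, Finset.mul_sum, ← Finset.sum_add_distrib,
      ← Finset.sum_add_distrib, ← Finset.sum_add_distrib]
    exact Finset.sum_congr rfl fun i _ => by ring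
  rw [h]; ring

lemma linear_sum_homog {σ : Type} {n : ℕ} (a : Fin n → ℂ) (y : Fin n → MvPolynomial σ ℂ)
    (hy : ∀ i, (y i).IsHomogeneous 1) : (∑ i, C (a i) * y i).IsHomogeneous 1 := by
  refine IsHomogeneous.sum _ _ _ fun i _ => ?_
  have := (isHomogeneous_C σ (a i)).mul (hy i)
  simpa using this

lemma exists_cube_root (z : ℂ) : ∃ r : ℂ, r ^ 3 = z :=
  IsAlgClosed.exists_pow_nat_eq z (by norm_num)

lemma upper {σ : Type} {n : ℕ} (y : Fin n → MvPolynomial σ ℂ) (hy : ∀ i, (y i).IsHomogeneous 1)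
    (u : MvPolynomial σ ℂ) (hu : u.IsHomogeneous 1) :
    IsPowerSum 3 (n + 2) (aeval y (fpol n) + u * aeval y (gpol n)) := by
  choose r hr using exists_cube_root
  have hC : ∀ (z : ℂ) (L : MvPolynomial σ ℂ), L.IsHomogeneous 1 →
      (C z * L).IsHomogeneous 1 := by
    intro z L hL
    have := (isHomogeneous_C σ z).mul hL
    simpa using this
  refine ⟨Fin.cons (C (r (-(1 + ∑ i : Fin n, ((i : ℕ) + 2 : ℂ)))) * u)
    (Fin.cons (u - ∑ i : Fin n, C ((i : ℕ) + 2 : ℂ) * y i)
      (fun i : Fin n => C (r ((i : ℕ) + 2 : ℂ)) * (u + y i))), ?_, ?_⟩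
  · intro i
    refine Fin.cases ?_ (fun j => ?_) i
    · exact hC _ _ hu
    · refine Fin.cases ?_ (fun k => ?_) j
      · simp only [Fin.cons_succ, Fin.cons_zero]
        exact hu.sub (linear_sum_homog _ _ hy)
      · simp only [Fin.cons_succ]
        exact hC _ _ (hu.add (hy k))
  · rw [Fin.sum_univ_succ, Fin.sum_univ_succ]
    simp only [Fin.cons_zero, Fin.cons_succ]
    have h1 : ∀ (z : ℂ) (L : MvPolynomial σ ℂ), (C (r z) * L) ^ 3 = C z * L ^ 3 := by
      intro z L
      rw [mul_pow, ← map_pow, hr]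
    simp only [h1]
    have h2 := key_identity (fun i : Fin n => (C ((i : ℕ) + 2 : ℂ) : MvPolynomial σ ℂ)) y u
    have h3 : aeval y (fpol n) = ∑ i : Fin n, C ((i : ℕ) + 2 : ℂ) * y i ^ 3 -
        (∑ i : Fin n, C ((i : ℕ) + 2 : ℂ) * y i) ^ 3 := by
      simp only [fpol, map_sub, map_sum, map_mul, map_pow, aeval_X, ← algebraMap_eq,
        AlgHom.commutes]
    have h4 : aeval y (gpol n) = 3 * (∑ i : Fin n, C ((i : ℕ) + 2 : ℂ) * y i ^ 2 +
        (∑ i : Fin n, C ((i : ℕ) + 2 : ℂ) * y i) ^ 2) := by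
      simp only [gpol, map_add, map_sum, map_mul, map_pow, aeval_X, ← algebraMap_eq,
        AlgHom.commutes, map_ofNat]
    rw [h3, h4, h2]
    have h5 : (C (-(1 + ∑ i : Fin n, ((i : ℕ) + 2 : ℂ))) : MvPolynomial σ ℂ) =
        -(1 + ∑ i : Fin n, C ((i : ℕ) + 2 : ℂ)) := by
      rw [map_neg, map_add, map_one, map_sum]
    rw [h5]
    ring

lemma powerSum_adjoin (n : ℕ) : IsPowerSum 3 (n + 2) (adjoin (fpol n) (gpol n)) := by
  have h := upper (σ := Fin (n + 1)) (fun i : Fin n => X i.castSucc)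
    (fun i => isHomogeneous_X _ _) (X (Fin.last n)) (isHomogeneous_X _ _)
  have e : ∀ p : MvPolynomial (Fin n) ℂ,
      aeval (fun i : Fin n => (X i.castSucc : MvPolynomial (Fin (n + 1)) ℂ)) p =
        rename Fin.castSucc p := by
    intro p
    rw [rename_eq_aeval]
    rfl
  rw [e, e] at h
  exact h

lemma powerSum_sub (n : ℕ) (v : MvPolynomial (Fin n) ℂ) (hv : v.IsHomogeneous 1) :
    IsPowerSum 3 (n + 2) (fpol n + v * gpol n) := by
  have h := upper (σ := Fin n) (fun i : Fin n => X i) (fun i => isHomogeneous_X _ _) v hv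
  rw [aeval_X_left_apply, aeval_X_left_apply] at h
  exact h

lemma fpol_homog (n : ℕ) : (fpol n).IsHomogeneous 3 := by
  refine IsHomogeneous.sub (IsHomogeneous.sum _ _ _ fun i _ => ?_) ?_
  · have := (isHomogeneous_C (Fin n) ((i : ℕ) + 2 : ℂ)).mul
      ((isHomogeneous_X ℂ i).pow 3)
    simpa using this
  · have := (linear_sum_homog (fun i : Fin n => ((i : ℕ) + 2 : ℂ)) (fun i => X i)
      (fun i => isHomogeneous_X _ _)).pow 3
    simpa using this

lemma gpol_homog (n : ℕ) : (gpol n).IsHomogeneous 2 := by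
  have h1 : (∑ i : Fin n, C ((i : ℕ) + 2 : ℂ) * X i ^ 2 +
      (∑ i : Fin n, C ((i : ℕ) + 2 : ℂ) * X i) ^ 2 : MvPolynomial (Fin n) ℂ).IsHomogeneous 2 := by
    refine IsHomogeneous.add (IsHomogeneous.sum _ _ _ fun i _ => ?_) ?_
    · have := (isHomogeneous_C (Fin n) ((i : ℕ) + 2 : ℂ)).mul
        ((isHomogeneous_X ℂ i).pow 2)
      simpa using this
    · have := (linear_sum_homog (fun i : Fin n => ((i : ℕ) + 2 : ℂ)) (fun i => X i)
        (fun i => isHomogeneous_X _ _)).pow 2
      simpa using this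
  have h2 := (isHomogeneous_C (Fin n) (3 : ℂ)).mul h1
  have h3 : (C (3 : ℂ) : MvPolynomial (Fin n) ℂ) = 3 := by
    exact map_ofNat C 3
  rw [h3] at h2
  simpa [gpol] using h2

/-! ## The lower bound -/

/-- A linear form in `n` variables is `∑ c i * X i`. -/
lemma eval_linear {n : ℕ} (L : MvPolynomial (Fin n) ℂ) (hL : L.IsHomogeneous 1) :
    ∃ c : Fin n → ℂ, ∀ x : Fin n → ℂ, eval x L = ∑ i, c i * x i := by
  have h : L ∈ homogeneousSubmodule (Fin n) ℂ 1 := hL
  rw [homogeneousSubmodule_one_eq_span_X] at h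
  obtain ⟨c, hc⟩ := (Submodule.mem_span_range_iff_exists_fun ℂ).1 h
  refine ⟨c, fun x => ?_⟩
  rw [← hc, map_sum]
  refine Finset.sum_congr rfl fun i _ => ?_
  rw [smul_eval, eval_X]

/-- The weights. -/
noncomputable def wt (n : ℕ) : Option (Option (Fin n)) → ℂ
  | none => 1
  | some none => -(1 + ∑ i : Fin n, ((i : ℕ) + 2 : ℂ))
  | some (some i) => (i : ℕ) + 2

/-- The linear functionals `l_i + v`. -/
noncomputable def Mf (n : ℕ) (ν : Fin n → ℂ) (x : Fin n → ℂ) : Option (Option (Fin n)) → ℂ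
  | none => ∑ i, ν i * x i - ∑ i : Fin n, ((i : ℕ) + 2 : ℂ) * x i
  | some none => ∑ i, ν i * x i
  | some (some i) => ∑ i, ν i * x i + x i

/-- The second relation. -/
noncomputable def cf (n : ℕ) (ν : Fin n → ℂ) : Option (Option (Fin n)) → ℂ
  | none => 0
  | some none => 1 + ∑ i, ν i
  | some (some i) => - ν i

lemma wt_inj (n : ℕ) : Function.Injective (wt n) := by
  have hpos : (∑ i : Fin n, ((i : ℕ) + 2 : ℂ)) = ((∑ i : Fin n, ((i : ℕ) + 2) : ℕ) : ℂ) := by
    push_cast; rfl
  rintro (_ | _ | i) (_ | _ | j) h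
  · rfl
  · exfalso
    simp only [wt] at h
    rw [hpos] at h
    have h2 : ((2 + ∑ i : Fin n, ((i : ℕ) + 2) : ℕ) : ℂ) = 0 := by
      push_cast at h ⊢
      linear_combination h
    rw [Nat.cast_eq_zero] at h2
    omega
  · exfalso
    simp only [wt] at h
    have h2 : (((j : ℕ) + 1 : ℕ) : ℂ) = 0 := by
      push_cast
      linear_combination -h
    rw [Nat.cast_eq_zero] at h2
    omega
  · exfalso
    simp only [wt] at h
    rw [hpos] at h
    have h2 : ((2 + ∑ i : Fin n, ((i : ℕ) + 2) : ℕ) : ℂ) = 0 := by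
      push_cast at h ⊢
      linear_combination -h
    rw [Nat.cast_eq_zero] at h2
    omega
  · rfl
  · exfalso
    simp only [wt] at h
    rw [hpos] at h
    have h2 : (((j : ℕ) + 3 + ∑ i : Fin n, ((i : ℕ) + 2) : ℕ) : ℂ) = 0 := by
      push_cast at h ⊢
      linear_combination -h
    rw [Nat.cast_eq_zero] at h2
    omega
  · exfalso
    simp only [wt] at h
    have h2 : (((i : ℕ) + 1 : ℕ) : ℂ) = 0 := by
      push_cast
      linear_combination h
    rw [Nat.cast_eq_zero] at h2
    omega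
  · exfalso
    simp only [wt] at h
    rw [hpos] at h
    have h2 : (((i : ℕ) + 3 + ∑ i : Fin n, ((i : ℕ) + 2) : ℕ) : ℂ) = 0 := by
      push_cast at h ⊢
      linear_combination h
    rw [Nat.cast_eq_zero] at h2
    omega
  · simp only [wt] at h
    have h2 : (((i : ℕ) : ℂ)) = ((j : ℕ) : ℂ) := by linear_combination h
    rw [Nat.cast_inj] at h2
    rw [Fin.ext h2]

lemma wt_ne_zero (n : ℕ) (q : Option (Option (Fin n))) : wt n q ≠ 0 := by
  rcases q with (_ | _ | i)
  · simp [wt]
  · intro h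
    simp only [wt] at h
    have h2 : ((1 + ∑ i : Fin n, ((i : ℕ) + 2) : ℕ) : ℂ) = 0 := by
      push_cast at h ⊢
      linear_combination -h
    rw [Nat.cast_eq_zero] at h2
    omega
  · intro h
    simp only [wt] at h
    have h2 : (((i : ℕ) + 2 : ℕ) : ℂ) = 0 := by
      push_cast
      linear_combination h
    rw [Nat.cast_eq_zero] at h2
    omega

lemma sum_opt {n : ℕ} (F : Option (Option (Fin n)) → ℂ) :
    ∑ q, F q = F none + (F (some none) + ∑ i : Fin n, F (some (some i))) := by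
  rw [Fintype.sum_option, Fintype.sum_option]

lemma wt_sum (n : ℕ) : ∑ q, wt n q = 0 := by
  rw [sum_opt]
  simp only [wt]
  ring

lemma cf_sum (n : ℕ) (ν : Fin n → ℂ) : ∑ q, cf n ν q = 1 := by
  rw [sum_opt]
  simp only [cf, Finset.sum_neg_distrib]
  ring

lemma wt_rel (n : ℕ) (ν x : Fin n → ℂ) : ∑ q, wt n q * Mf n ν x q = 0 := by
  rw [sum_opt]
  simp only [wt, Mf, mul_add, Finset.sum_add_distrib, ← Finset.sum_mul]
  ring

lemma cf_rel (n : ℕ) (ν x : Fin n → ℂ) : ∑ q, cf n ν q * Mf n ν x q = 0 := by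
  rw [sum_opt]
  simp only [cf, Mf, mul_add, Finset.sum_add_distrib, ← Finset.sum_mul, neg_mul,
    Finset.sum_neg_distrib]
  ring

lemma Mf_surj (n : ℕ) (ν : Fin n → ℂ) (m : Option (Option (Fin n)) → ℂ)
    (h1 : ∑ q, wt n q * m q = 0) (h2 : ∑ q, cf n ν q * m q = 0) :
    ∃ x, Mf n ν x = m := by
  refine ⟨fun i => m (some (some i)) - m (some none), ?_⟩
  rw [sum_opt] at h1 h2
  simp only [wt, cf, neg_mul, Finset.sum_neg_distrib, zero_mul] at h1 h2
  have e1 : ∑ i, ν i * (m (some (some i)) - m (some none)) = m (some none) := by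
    simp only [mul_sub, Finset.sum_sub_distrib, ← Finset.sum_mul]
    linear_combination -h2
  have e2 : ∑ i : Fin n, ((i : ℕ) + 2 : ℂ) * (m (some (some i)) - m (some none)) =
      m (some none) - m none := by
    simp only [mul_sub, Finset.sum_sub_distrib, ← Finset.sum_mul]
    linear_combination h1
  funext q
  rcases q with (_ | _ | i)
  · simp only [Mf]
    rw [e1, e2]; ring
  · simp only [Mf]
    rw [e1]
  · simp only [Mf]
    rw [e1]; ring

lemma Mf_add (n : ℕ) (ν x y : Fin n → ℂ) (q) : Mf n ν (x + y) q = Mf n ν x q + Mf n ν y q := by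
  rcases q with (_ | _ | i) <;>
    simp only [Mf, Pi.add_apply, mul_add, Finset.sum_add_distrib] <;> ring

lemma Mf_inj (n : ℕ) (ν x : Fin n → ℂ) (h : Mf n ν x = 0) : x = 0 := by
  funext i
  have h1 := congrFun h (some none)
  have h2 := congrFun h (some (some i))
  simp only [Mf, Pi.zero_apply] at h1 h2
  rw [h1] at h2
  simpa using h2

lemma eval_family (n : ℕ) (v : MvPolynomial (Fin n) ℂ) (ν : Fin n → ℂ)
    (hν : ∀ x : Fin n → ℂ, eval x v = ∑ i, ν i * x i) (x : Fin n → ℂ) :
    eval x (fpol n + v * gpol n) = ∑ q, wt n q * Mf n ν x q ^ 3 := by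
  have h := key_identity (fun i : Fin n => ((i : ℕ) + 2 : ℂ)) x (∑ i, ν i * x i)
  have h1 : eval x (fpol n) = ∑ i : Fin n, ((i : ℕ) + 2 : ℂ) * x i ^ 3 -
      (∑ i : Fin n, ((i : ℕ) + 2 : ℂ) * x i) ^ 3 := by
    simp only [fpol, map_sub, map_sum, map_mul, map_pow, eval_X, eval_C]
  have h2 : eval x (gpol n) = 3 * (∑ i : Fin n, ((i : ℕ) + 2 : ℂ) * x i ^ 2 +
      (∑ i : Fin n, ((i : ℕ) + 2 : ℂ) * x i) ^ 2) := by
    simp only [gpol, map_add, map_sum, map_mul, map_pow, eval_X, eval_C, map_ofNat]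
  rw [map_add, map_mul, h1, h2, hν, h, sum_opt]
  simp only [wt, Mf]
  ring

/-- Polarisation. -/
lemma cube_polar (a b c : ℂ) :
    (a + b + c) ^ 3 - (a + b) ^ 3 - (a + c) ^ 3 - (b + c) ^ 3 + a ^ 3 + b ^ 3 + c ^ 3 =
      6 * (a * b * c) := by ring

lemma lower (n : ℕ) (hn : 3 ≤ n) (v : MvPolynomial (Fin n) ℂ) (hv : v.IsHomogeneous 1) (m : ℕ)
    (hm : IsPowerSum 3 m (fpol n + v * gpol n)) : n ≤ m := by
  by_contra hlt
  push Not at hlt
  obtain ⟨ν, hν⟩ := eval_linear v hv
  obtain ⟨L, hL, hsum⟩ := hm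
  choose c hc using fun k => eval_linear (L k) (hL k)
  -- a common zero of the `L k`
  obtain ⟨w, hw0, hw⟩ : ∃ w : Fin n → ℂ, w ≠ 0 ∧ ∀ k, ∑ i, c k i * w i = 0 := by
    have hker : LinearMap.ker (Matrix.mulVecLin (Matrix.of c)) ≠ ⊥ :=
      LinearMap.ker_ne_bot_of_finrank_lt (by simpa using hlt)
    obtain ⟨w, hw, hw0⟩ := (Submodule.ne_bot_iff _).1 hker
    rw [LinearMap.mem_ker] at hw
    exact ⟨w, hw0, fun k => congrFun hw k⟩
  -- the two expressions of the values of the form
  have hφ1 : ∀ x : Fin n → ℂ, eval x (fpol n + v * gpol n) = ∑ k, (∑ i, c k i * x i) ^ 3 := by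
    intro x
    rw [hsum, map_sum]
    refine Finset.sum_congr rfl fun k _ => ?_
    rw [map_pow, hc k x]
  have hφ2 := eval_family n v ν hν
  have hl : ∀ k (x y : Fin n → ℂ), ∑ i, c k i * (x + y) i =
      ∑ i, c k i * x i + ∑ i, c k i * y i := by
    intro k x y
    simp only [Pi.add_apply, mul_add, Finset.sum_add_distrib]
  have hpol : ∀ x y z : Fin n → ℂ,
      ∑ k, 6 * ((∑ i, c k i * x i) * (∑ i, c k i * y i) * (∑ i, c k i * z i)) =
      ∑ q, 6 * (wt n q * (Mf n ν x q * Mf n ν y q * Mf n ν z q)) := by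
    intro x y z
    have e1 : ∑ k, 6 * ((∑ i, c k i * x i) * (∑ i, c k i * y i) * (∑ i, c k i * z i)) =
        ∑ k, (∑ i, c k i * (x + y + z) i) ^ 3 - ∑ k, (∑ i, c k i * (x + y) i) ^ 3 -
        ∑ k, (∑ i, c k i * (x + z) i) ^ 3 - ∑ k, (∑ i, c k i * (y + z) i) ^ 3 +
        ∑ k, (∑ i, c k i * x i) ^ 3 + ∑ k, (∑ i, c k i * y i) ^ 3 +
        ∑ k, (∑ i, c k i * z i) ^ 3 := by
      simp only [← Finset.sum_sub_distrib, ← Finset.sum_add_distrib]
      refine Finset.sum_congr rfl fun k _ => ?_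
      rw [hl, hl, hl, hl]
      ring
    have e2 : ∑ q, 6 * (wt n q * (Mf n ν x q * Mf n ν y q * Mf n ν z q)) =
        ∑ q, wt n q * Mf n ν (x + y + z) q ^ 3 - ∑ q, wt n q * Mf n ν (x + y) q ^ 3 -
        ∑ q, wt n q * Mf n ν (x + z) q ^ 3 - ∑ q, wt n q * Mf n ν (y + z) q ^ 3 +
        ∑ q, wt n q * Mf n ν x q ^ 3 + ∑ q, wt n q * Mf n ν y q ^ 3 +
        ∑ q, wt n q * Mf n ν z q ^ 3 := by
      simp only [← Finset.sum_sub_distrib, ← Finset.sum_add_distrib]
      refine Finset.sum_congr rfl fun q _ => ?_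
      rw [Mf_add, Mf_add, Mf_add, Mf_add]
      ring
    rw [e1, e2]
    simp only [← hφ1, ← hφ2]
  have hzero : ∀ x y : Fin n → ℂ,
      ∑ q, wt n q * Mf n ν w q * Mf n ν x q * Mf n ν y q = 0 := by
    intro x y
    have h := hpol w x y
    simp only [hw, zero_mul, mul_zero, Finset.sum_const_zero] at h
    rw [← Finset.mul_sum] at h
    have h2 : ∑ q, wt n q * (Mf n ν w q * Mf n ν x q * Mf n ν y q) = 0 := by
      rcases mul_eq_zero.1 h.symm with h3 | h3
      · norm_num at h3
      · exact h3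
    rw [← h2]
    exact Finset.sum_congr rfl fun q _ => by ring
  have hcore := core (wt n) (cf n ν) (Mf n ν w) (wt_inj n) (wt_ne_zero n) (cf_sum n ν)
    (wt_sum n) (by simp only [Fintype.card_option, Fintype.card_fin]; omega)
    (wt_rel n ν w) (cf_rel n ν w) (by
      intro m m' h1 h2 h3 h4
      obtain ⟨x, rfl⟩ := Mf_surj n ν m h1 h2
      obtain ⟨y, rfl⟩ := Mf_surj n ν m' h3 h4
      exact hzero x y)
  exact hw0 (Mf_inj n ν w hcore)

lemma fpol_ne_zero (n : ℕ) (hn : 3 ≤ n) : fpol n ≠ 0 := by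
  intro h
  have h1 : eval (Pi.single (⟨0, by omega⟩ : Fin n) (1 : ℂ)) (fpol n) = 0 := by rw [h, map_zero]
  simp only [fpol, map_sub, map_sum, map_mul, map_pow, eval_X, eval_C, Pi.single_apply] at h1
  simp only [ite_pow, mul_ite, one_pow, mul_one, mul_zero, zero_pow (three_ne_zero),
    Finset.sum_ite_eq', Finset.mem_univ, if_true] at h1
  norm_num at h1

lemma gpol_ne_zero (n : ℕ) (hn : 3 ≤ n) : gpol n ≠ 0 := by
  intro h
  have h1 : eval (Pi.single (⟨0, by omega⟩ : Fin n) (1 : ℂ)) (gpol n) = 0 := by rw [h, map_zero]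
  simp only [gpol, map_add, map_sum, map_mul, map_pow, eval_X, eval_C, Pi.single_apply,
    map_ofNat] at h1
  simp only [ite_pow, mul_ite, one_pow, mul_one, mul_zero, zero_pow (two_ne_zero),
    Finset.sum_ite_eq', Finset.mem_univ, if_true] at h1
  norm_num at h1

/-- For every `n ≥ 3` there are a nonzero cubic form `f` and a nonzero quadratic form `g` in `n`
variables over `ℂ` such that the Waring rank of `f + u g` is less than `3` plus the minimum of the
Waring ranks of the forms `f + v g`, `v` running over the linear forms in the `n` variables. -/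
theorem result (n : ℕ) (hn : 3 ≤ n) :
    ∃ f g : MvPolynomial (Fin n) ℂ, f.IsHomogeneous 3 ∧ f ≠ 0 ∧ g.IsHomogeneous (3 - 1) ∧ g ≠ 0 ∧
      WR 3 (adjoin f g) <
        3 + ⨅ v : {v : MvPolynomial (Fin n) ℂ // v.IsHomogeneous 1}, WR 3 (f + v.1 * g) := by
  refine ⟨fpol n, gpol n, fpol_homog n, fpol_ne_zero n hn, gpol_homog n, gpol_ne_zero n hn, ?_⟩
  have h1 : WR 3 (adjoin (fpol n) (gpol n)) ≤ n + 2 := Nat.sInf_le (powerSum_adjoin n)
  have : Nonempty {v : MvPolynomial (Fin n) ℂ // v.IsHomogeneous 1} :=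
    ⟨⟨0, isHomogeneous_zero _ _ _⟩⟩
  have h2 : n ≤ ⨅ v : {v : MvPolynomial (Fin n) ℂ // v.IsHomogeneous 1},
      WR 3 (fpol n + v.1 * gpol n) := by
    refine le_ciInf fun v => ?_
    have hne : {w : ℕ | IsPowerSum 3 w (fpol n + v.1 * gpol n)}.Nonempty :=
      ⟨n + 2, powerSum_sub n v.1 v.2⟩
    exact lower n hn v.1 v.2 _ (Nat.sInf_mem hne)
  omega

end Pool.Agent.Results.MP_1e0c69_ag.AdjoinVariable
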